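import Pool.Agent.Helper64.PC.Frc

/-!
# PC, module AC: choice is forced
-/

namespace Pool.Agent.Helper44.PC

open Pool.Agent.Helper46.SP Pool.Agent.Helper94.SP Name Pool.Agent.Helper64.PC

section

variable {P : Type} [Preorder P] {I : Type}

/-- `i` is the leading index of `A i` below `q`. -/
def Lead (A : I → Name P) (B : I → P) (i : I) (q : P) : Prop :=
  q ≤ B i ∧ ∀ k, WellOrderingRel k i → ∀ r ≤ q, ¬ (r ≤ B k ∧ FEq (A k) (A i) r)

theorem Lead.mono {A : I → Name P} {B : I → P} {i : I} {q r : P} (h : Lead A B i q)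
    (hr : r ≤ q) : Lead A B i r :=
  ⟨hr.trans h.1, fun k hk s hs => h.2 k hk s (hs.trans hr)⟩

theorem lead_exists {A : I → Name P} {B : I → P} {x : Name P} {p : P}
    (h : FMem x (Name.mk I A B) p) {q : P} (hq : q ≤ p) :
    ∃ r ≤ q, ∃ i, Lead A B i r ∧ FEq x (A i) r := by
  rw [fmem_mk] at h
  have hne : {i : I | ∃ r ≤ q, r ≤ B i ∧ FEq x (A i) r}.Nonempty := by
    obtain ⟨r, hr, i, hi, he⟩ := h q hq
    exact ⟨i, r, hr, hi, he⟩
  have wf : WellFounded (WellOrderingRel : I → I → Prop) := IsWellFounded.wf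
  obtain ⟨r, hr, hi, he⟩ := wf.min_mem _ hne
  refine ⟨r, hr, wf.min _ hne, ⟨hi, fun k hk s hs hc => ?_⟩, he⟩
  have hmem : k ∈ {i : I | ∃ r ≤ q, r ≤ B i ∧ FEq x (A i) r} :=
    ⟨s, hs.trans hr, hc.1, feq_trans (feq_mono he hs) (feq_symm hc.2)⟩
  exact absurd hk (wf.not_lt_min _ hmem)

theorem lead_uniq {A : I → Name P} {B : I → P} {i j : I} {q : P} (hi : Lead A B i q)
    (hj : Lead A B j q) (h : FEq (A i) (A j) q) : i = j := by
  rcases trichotomous_of WellOrderingRel i j with hij | hij | hij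
  · exact absurd ⟨hi.1, h⟩ (hj.2 i hij q le_rfl)
  · exact hij
  · exact absurd ⟨hj.1, feq_symm h⟩ (hi.2 j hij q le_rfl)

variable [OrderTop P]

/-- The name of the well-ordering. -/
def woN (A : I → Name P) (B : I → P) : Name P :=
  Name.mk {t : I × I × P // WellOrderingRel t.1 t.2.1 ∧ Lead A B t.1 t.2.2 ∧
      Lead A B t.2.1 t.2.2}
    (fun t => opair (A t.1.1) (A t.1.2.1)) (fun t => t.1.2.2)

theorem fmem_woN (A : I → Name P) (B : I → P) (x y : Name P) (p : P) :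
    FMem (opair x y) (woN A B) p ↔ ∀ q ≤ p, ∃ r ≤ q, ∃ i j, WellOrderingRel i j ∧
      Lead A B i r ∧ Lead A B j r ∧ FEq x (A i) r ∧ FEq y (A j) r := by
  unfold woN
  rw [fmem_mk]
  constructor
  · intro h q hq
    obtain ⟨r, hr, ⟨⟨i, j, s⟩, h1, h2, h3⟩, hs, he⟩ := h q hq
    obtain ⟨e1, e2⟩ := opair_inj he
    exact ⟨r, hr, i, j, h1, h2.mono hs, h3.mono hs, e1, e2⟩
  · intro h q hq
    obtain ⟨r, hr, i, j, h1, h2, h3, h4, h5⟩ := h q hq
    exact ⟨r, hr, ⟨⟨i, j, r⟩, h1, h2, h3⟩, le_rfl, opair_congr h4 h5⟩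

theorem fmem_woN_intro {A : I → Name P} {B : I → P} {x y : Name P} {p : P} {i j : I}
    (h1 : WellOrderingRel i j) (h2 : Lead A B i p) (h3 : Lead A B j p) (h4 : FEq x (A i) p)
    (h5 : FEq y (A j) p) : FMem (opair x y) (woN A B) p :=
  (fmem_woN _ _ _ _ _).2 fun q hq =>
    ⟨q, le_rfl, i, j, h1, h2.mono hq, h3.mono hq, feq_mono h4 hq, feq_mono h5 hq⟩

theorem woN_irrefl (A : I → Name P) (B : I → P) (x : Name P) (p : P) :
    ¬ FMem (opair x x) (woN A B) p := by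
  intro h
  rw [fmem_woN] at h
  obtain ⟨r, hr, i, j, h1, h2, h3, h4, h5⟩ := h p le_rfl
  obtain rfl := lead_uniq h2 h3 (feq_trans (feq_symm h4) h5)
  exact irrefl_of WellOrderingRel i h1

theorem woN_trans {A : I → Name P} {B : I → P} {x y z : Name P} {p : P}
    (h : FMem (opair x y) (woN A B) p) (h' : FMem (opair y z) (woN A B) p) :
    FMem (opair x z) (woN A B) p := by
  rw [fmem_woN] at h h' ⊢
  intro q hq
  obtain ⟨r, hr, i, j, h1, h2, h3, h4, h5⟩ := h q hq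
  obtain ⟨s, hs, j', k, g1, g2, g3, g4, g5⟩ := h' r (hr.trans hq)
  obtain rfl := lead_uniq (h3.mono hs) g2 (feq_trans (feq_symm (feq_mono h5 hs)) g4)
  exact ⟨s, hs.trans hr, i, k, trans_of WellOrderingRel h1 g1, h2.mono hs, g3,
    feq_mono h4 hs, g5⟩

theorem woN_total {A : I → Name P} {B : I → P} {x y : Name P} {p : P}
    (hx : FMem x (Name.mk I A B) p) (hy : FMem y (Name.mk I A B) p) :
    ∃ q ≤ p, FMem (opair x y) (woN A B) q ∨ FEq x y q ∨ FMem (opair y x) (woN A B) q := by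
  obtain ⟨r, hr, i, h1, h2⟩ := lead_exists hx le_rfl
  obtain ⟨s, hs, j, g1, g2⟩ := lead_exists hy hr
  refine ⟨s, hs.trans hr, ?_⟩
  rcases trichotomous_of WellOrderingRel i j with hij | hij | hij
  · exact Or.inl (fmem_woN_intro hij (h1.mono hs) g1 (feq_mono h2 hs) g2)
  · subst hij
    exact Or.inr (Or.inl (feq_trans (feq_mono h2 hs) (feq_symm g2)))
  · exact Or.inr (Or.inr (fmem_woN_intro hij g1 (h1.mono hs) g2 (feq_mono h2 hs)))

theorem woN_least {A : I → Name P} {B : I → P} {s : Name P} {p : P}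
    (hs : ∀ x, ∀ q ≤ p, FMem x s q → FMem x (Name.mk I A B) q) {q : P} (hq : q ≤ p)
    {y : Name P} (hy : FMem y s q) :
    ∃ r ≤ q, ∃ x, FMem x s r ∧ ∀ z, ∀ t ≤ r, FMem z s t → ∃ t' ≤ t,
      FEq z x t' ∨ FMem (opair x z) (woN A B) t' := by
  have hne : {i : I | ∃ r ≤ q, Lead A B i r ∧ FMem (A i) s r}.Nonempty := by
    obtain ⟨r, hr, i, hi, he⟩ := lead_exists (hs y q hq hy) le_rfl
    exact ⟨i, r, hr, hi, fmem_congr he (feq_refl _ _) (fmem_mono hy hr)⟩
  have wf : WellFounded (WellOrderingRel : I → I → Prop) := IsWellFounded.wf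
  obtain ⟨r, hr, hi, he⟩ := wf.min_mem _ hne
  refine ⟨r, hr, A (wf.min _ hne), he, fun z t ht hz => ?_⟩
  obtain ⟨t', ht', j, hj, hzj⟩ := lead_exists (hs z t (ht.trans (hr.trans hq)) hz) le_rfl
  refine ⟨t', ht', ?_⟩
  have hmem : j ∈ {i : I | ∃ r ≤ q, Lead A B i r ∧ FMem (A i) s r} :=
    ⟨t', ht'.trans (ht.trans hr), hj, fmem_congr hzj (feq_refl _ _) (fmem_mono hz ht')⟩
  rcases trichotomous_of WellOrderingRel (wf.min _ hne) j with hij | hij | hij
  · exact Or.inr (fmem_woN_intro hij (hi.mono (ht'.trans ht)) hj (feq_refl _ _) hzj)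
  · rw [hij]
    exact Or.inl hzj
  · exact absurd hij (wf.not_lt_min _ hmem)

theorem fo_isWellOrderOf (A : I → Name P) (B : I → P) (p : P) :
    Fo (.isWellOrderOf 1 0) (Fin.cons (woN A B) (Fin.cons (Name.mk I A B) Fin.elim0)) p := by
  unfold Fml.isWellOrderOf
  rw [fo_and, fo_and, fo_and]
  refine ⟨?_, ?_, ?_, ?_⟩
  · rw [fo_all]
    intro x
    rw [fo_imp]
    intro q _ _
    rw [fo_neg]
    intro r _ hr
    rw [fo_relMem] at hr
    exact woN_irrefl A B x r hr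
  · rw [fo_all]
    intro x
    rw [fo_all]
    intro y
    rw [fo_all]
    intro z
    rw [fo_imp]
    intro q _ _
    rw [fo_imp]
    intro q2 _ _
    rw [fo_imp]
    intro q3 _ _
    rw [fo_imp]
    intro q4 _ h4
    rw [fo_imp]
    intro q5 hq5 h5
    rw [fo_relMem] at h4 h5 ⊢
    exact woN_trans (fmem_mono h4 hq5) h5
  · rw [fo_all]
    intro x
    rw [fo_all]
    intro y
    rw [fo_imp]
    intro q _ hx
    rw [fo_imp]
    intro q2 hq2 hy
    rw [fo_mem] at hx hy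
    rw [fo_or]
    intro q3 hq3
    obtain ⟨r, hr, h⟩ := woN_total (A := A) (B := B) (x := x) (y := y) (p := q3)
      (fmem_mono hx (hq3.trans hq2)) (fmem_mono hy hq3)
    refine ⟨r, hr, ?_⟩
    rcases h with h | h | h
    · left
      rw [fo_relMem]
      exact h
    · right
      rw [fo_or]
      intro q4 hq4
      refine ⟨q4, le_rfl, Or.inl ?_⟩
      rw [fo_eq]
      exact feq_mono h hq4
    · right
      rw [fo_or]
      intro q4 hq4
      refine ⟨q4, le_rfl, Or.inr ?_⟩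
      rw [fo_relMem]
      exact fmem_mono h hq4
  · rw [fo_all]
    intro s
    rw [fo_imp]
    intro q _ hs
    rw [fo_imp]
    intro q2 hq2 he
    rw [fo_all] at hs
    rw [fo_ex] at he ⊢
    have hs' : ∀ x, ∀ q' ≤ q, FMem x s q' → FMem x (Name.mk I A B) q' := by
      intro x q' hq' hx
      have h1 := hs x
      rw [fo_imp] at h1
      exact h1 q' hq' hx
    intro q3 hq3
    obtain ⟨q4, hq4, y, hy⟩ := he q3 hq3
    obtain ⟨r, hr, x, hx, hz⟩ := woN_least (A := A) (B := B) (s := s) hs'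
      (q := q4) (hq4.trans (hq3.trans hq2)) (y := y) hy
    refine ⟨r, hr.trans hq4, x, ?_⟩
    rw [fo_and]
    refine ⟨hx, ?_⟩
    rw [fo_all]
    intro z
    rw [fo_imp]
    intro t ht hzt
    rw [fo_or]
    intro t1 ht1
    obtain ⟨t', ht', h⟩ := hz z t1 (ht1.trans ht) (fmem_mono hzt ht1)
    refine ⟨t', ht', ?_⟩
    rcases h with h | h
    · exact Or.inl h
    · right
      rw [fo_relMem]
      exact h

end

theorem st_ac : ST_ac := by
  intro P _ _ p
  show Fo Fm.ac Fin.elim0 p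
  unfold Fm.ac
  rw [fo_all]
  intro a
  rw [fo_ex]
  intro q _
  cases a with
  | mk I A B => exact ⟨q, le_rfl, woN A B, fo_isWellOrderOf A B q⟩

end Pool.Agent.Helper44.PC
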