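import Pool.Agent.Helper76.PC.Stmts

/-!
MP_c33217_co, module CHK: soundness of the case split checker.
-/

namespace Pool.Agent.Helper76.PC

theorem chk_nil_cfg (lib : List Ent) (i dm : ℕ) (K : Cfg) :
    chk lib i dm .nil K .cfg = false := by simp [chk]

theorem chk_nil_degs (lib : List Ent) (i dm v d : ℕ) (ds : List ℕ) (K : Cfg) :
    chk lib i dm .nil K (.degs v (d :: ds)) = false := by simp [chk]

theorem chk_nil_fills (lib : List Ent) (i dm v d : ℕ) (ds : List ℕ) (K : Cfg) :
    chk lib i dm .nil K (.fills v (d :: ds)) = false := by simp [chk]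

theorem chk_emb_degs (lib : List Ent) (i dm j : ℕ) (fl : Bool) (mp : List ℕ) (v : ℕ)
    (ds : List ℕ) (K : Cfg) : chk lib i dm (.emb j fl mp) K (.degs v ds) = false := by
  simp [chk]

theorem chk_emb_fills (lib : List Ent) (i dm j : ℕ) (fl : Bool) (mp : List ℕ) (v : ℕ)
    (ds : List ℕ) (K : Cfg) : chk lib i dm (.emb j fl mp) K (.fills v ds) = false := by
  simp [chk]

theorem chk_emb_cfg (lib : List Ent) (i dm j : ℕ) (fl : Bool) (mp : List ℕ) (K : Cfg)
    (h : chk lib i dm (.emb j fl mp) K .cfg = true) :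
    j < i ∧ ∃ e, getE j lib = some e ∧ e.dm ≤ dm ∧ embOK e.K K mp fl = true := by
  simp only [chk, Bool.and_eq_true] at h
  obtain ⟨h1, h2⟩ := h
  refine ⟨Nat.le_of_ble_eq_true h1, ?_⟩
  cases he : getE j lib with
  | none => rw [he] at h2; simp at h2
  | some e =>
    rw [he] at h2
    simp only [Bool.and_eq_true] at h2
    exact ⟨e, rfl, Nat.le_of_ble_eq_true h2.1, h2.2⟩

theorem chk_deg_degs (lib : List Ent) (i dm v v' : ℕ) (l : Prf)
    (ds : List ℕ) (K : Cfg) : chk lib i dm (.deg v l) K (.degs v' ds) = false := by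
  simp [chk]

theorem chk_deg_fills (lib : List Ent) (i dm v v' : ℕ) (l : Prf)
    (ds : List ℕ) (K : Cfg) : chk lib i dm (.deg v l) K (.fills v' ds) = false := by
  simp [chk]

theorem chk_deg_cfg (lib : List Ent) (i dm v : ℕ) (l : Prf) (K : Cfg)
    (h : chk lib i dm (.deg v l) K .cfg = true) :
    ∃ r, getV v K = some r ∧
      chk lib i dm l K (.degs v (rangeL r.lo (r.hi + 1 - r.lo))) = true := by
  simp only [chk] at h
  cases hr : getV v K with
  | none => rw [hr] at h; simp at h
  | some r =>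
    rw [hr] at h
    exact ⟨r, rfl, h⟩

theorem chk_fill_degs (lib : List Ent) (i dm v m v' : ℕ) (p l : Prf)
    (ds : List ℕ) (K : Cfg) : chk lib i dm (.fill v m p l) K (.degs v' ds) = false := by
  simp [chk]

theorem chk_fill_fills (lib : List Ent) (i dm v m v' : ℕ) (p l : Prf)
    (ds : List ℕ) (K : Cfg) : chk lib i dm (.fill v m p l) K (.fills v' ds) = false := by
  simp [chk]

theorem chk_fill_cfg (lib : List Ent) (i dm v m : ℕ) (p l : Prf) (K : Cfg)
    (h : chk lib i dm (.fill v m p l) K .cfg = true) :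
    ∃ r, getV v K = some r ∧ lenN r.nb + 1 ≤ r.lo ∧ getV m K = none ∧
      chk lib i dm p (joinNew v m dm r.sd K) .cfg = true ∧
      chk lib i dm l K (.fills v (cands K r K)) = true := by
  simp only [chk] at h
  cases hr : getV v K with
  | none => rw [hr] at h; simp at h
  | some r =>
    rw [hr] at h
    simp only [Bool.and_eq_true] at h
    obtain ⟨h1, h2⟩ := h
    refine ⟨r, rfl, Nat.le_of_ble_eq_true h1, ?_⟩
    cases hm : getV m K with
    | some q => rw [hm] at h2; simp at h2
    | none =>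
      rw [hm] at h2
      simp only [Bool.and_eq_true] at h2
      exact ⟨rfl, h2.1, h2.2⟩

theorem chk_cons_cfg (lib : List Ent) (i dm w : ℕ) (p l : Prf) (K : Cfg) :
    chk lib i dm (.cons w p l) K .cfg = false := by simp [chk]

theorem chk_cons_degs (lib : List Ent) (i dm w v : ℕ) (p l : Prf) (ds : List ℕ) (K : Cfg)
    (h : chk lib i dm (.cons w p l) K (.degs v ds) = true) :
    chk lib i dm p (setDeg v w K) .cfg = true ∧
      chk lib i dm l K (.degs v (remv w ds)) = true := by
  simpa only [chk, Bool.and_eq_true] using h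

theorem chk_cons_fills (lib : List Ent) (i dm w v : ℕ) (p l : Prf) (ds : List ℕ) (K : Cfg)
    (h : chk lib i dm (.cons w p l) K (.fills v ds) = true) :
    chk lib i dm p (joinC v w K) .cfg = true ∧
      chk lib i dm l K (.fills v (remv w ds)) = true := by
  simpa only [chk, Bool.and_eq_true] using h

theorem chk_main (h1 : ST_LST) (h2 : ST_EMB) (h3 : ST_FILL) (h4 : ST_DEG)
    (lib : List Ent) (i : ℕ)
    (hl : ∀ j < i, ∀ e, getE j lib = some e → wfC e.K e.K = true ∧ Ref e.dm e.K)
    (dm : ℕ) (p : Prf) :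
    (∀ K, chk lib i dm p K .cfg = true → Ref dm K) ∧
    (∀ K v ds, chk lib i dm p K (.degs v ds) = true → ∀ d ∈ ds, Ref dm (setDeg v d K)) ∧
    (∀ K v ws, chk lib i dm p K (.fills v ws) = true → ∀ w ∈ ws, Ref dm (joinC v w K)) := by
  obtain ⟨_, hlen, hremv, _, _, _, hget, _, _, _, _, _⟩ := h1
  induction p with
  | nil =>
    refine ⟨?_, ?_, ?_⟩
    · intro K h
      rw [chk_nil_cfg] at h
      exact absurd h (by simp)
    · intro K v ds h d hd
      cases ds with
      | nil => simp at hd
      | cons a t => rw [chk_nil_degs] at h; exact absurd h (by simp)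
    · intro K v ds h d hd
      cases ds with
      | nil => simp at hd
      | cons a t => rw [chk_nil_fills] at h; exact absurd h (by simp)
  | emb j fl mp =>
    refine ⟨?_, ?_, ?_⟩
    · intro K h G φ f hE hB hdeg
      obtain ⟨hj, e, he, hdm, hemb⟩ := chk_emb_cfg lib i dm j fl mp K h
      obtain ⟨hwf, hRef⟩ := hl j hj e he
      exact hRef G _ _ (h2 e.K K mp fl hwf hemb G φ f hE) hB
        (fun x hx => ⟨le_trans hdm (hdeg x hx).1, (hdeg x hx).2⟩)
    · intro K v ds h
      rw [chk_emb_degs] at h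
      exact absurd h (by simp)
    · intro K v ds h
      rw [chk_emb_fills] at h
      exact absurd h (by simp)
  | deg v l ih =>
    refine ⟨?_, ?_, ?_⟩
    · intro K h G φ f hE hB hdeg
      obtain ⟨r, hr, hc⟩ := chk_deg_cfg lib i dm v l K h
      obtain ⟨hrK, hid⟩ := hget v K r hr
      obtain ⟨d, hd, hEd⟩ := h4 G φ f K hE r hrK
      rw [hid] at hEd
      exact ih.2.1 K v _ hc d hd G φ f hEd hB hdeg
    · intro K v ds h
      rw [chk_deg_degs] at h
      exact absurd h (by simp)
    · intro K v ds h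
      rw [chk_deg_fills] at h
      exact absurd h (by simp)
  | fill v m p l ihp ihl =>
    refine ⟨?_, ?_, ?_⟩
    · intro K h G φ f hE hB hdeg
      obtain ⟨r, hr, hlo, hm, hp, hc⟩ := chk_fill_cfg lib i dm v m p l K h
      obtain ⟨hrK, hid⟩ := hget v K r hr
      rw [hlen] at hlo
      rcases h3 G φ f K hE r hrK (by omega) m dm hm hdeg with ⟨ψ, hψ⟩ | ⟨w, hw, hEw⟩
      · rw [hid] at hψ
        exact ihp.1 _ hp G ψ f hψ hB hdeg
      · rw [hid] at hEw
        exact ihl.2.2 K v _ hc w hw G φ f hEw hB hdeg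
    · intro K v ds h
      rw [chk_fill_degs] at h
      exact absurd h (by simp)
    · intro K v ds h
      rw [chk_fill_fills] at h
      exact absurd h (by simp)
  | cons w p l ihp ihl =>
    refine ⟨?_, ?_, ?_⟩
    · intro K h
      rw [chk_cons_cfg] at h
      exact absurd h (by simp)
    · intro K v ds h d hd
      obtain ⟨ha, hb⟩ := chk_cons_degs lib i dm w v p l ds K h
      by_cases hdw : d = w
      · rw [hdw]; exact ihp.1 _ ha
      · exact ihl.2.1 K v _ hb d ((hremv w d ds).2 ⟨hd, hdw⟩)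
    · intro K v ds h d hd
      obtain ⟨ha, hb⟩ := chk_cons_fills lib i dm w v p l ds K h
      by_cases hdw : d = w
      · rw [hdw]; exact ihp.1 _ ha
      · exact ihl.2.2 K v _ hb d ((hremv w d ds).2 ⟨hd, hdw⟩)

theorem st_CHK (h1 : ST_LST) (h2 : ST_EMB) (h3 : ST_FILL) (h4 : ST_DEG) : ST_CHK := by
  intro lib i hl dm p K h
  exact (chk_main h1 h2 h3 h4 lib i hl dm p).1 K h

end Pool.Agent.Helper76.PC
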