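import Pool.Agent.Helper64.PC.Frc

/-!
# PC, module MAP: images of names of ultrafilters
-/

namespace Pool.Agent.Helper44.PC

open Pool.Agent.Helper64.PC Set

theorem st_map : ST_map := by
  intro P _ p₀ I J U θ
  let Im : (J → Set P) → I → Set P := fun X i => {r | ∃ t, θ.V i t r ∧ Fd (X t) r}
  have hIm : ∀ (X : J → Set P) (i : I) (p q : P), p ∈ Im X i → q ≤ p → q ∈ Im X i := by
    rintro X i p q ⟨t, h1, h2⟩ hq
    exact ⟨t, θ.mono _ _ _ _ h1 hq, h2.mono hq⟩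
  refine ⟨{
    W := fun X p => U.W (Im X) p
    mono := fun X p q h hq => U.mono _ _ _ h hq
    dense := fun X p h => U.dense _ _ h
    inter := ?_
    ultra := ?_
    ne := ?_ }, fun X p => Iff.rfl⟩
  · intro X Y Z p hp hX hY h
    refine U.inter _ _ _ p hp hX hY fun i q hq h1 h2 => ?_
    rw [fd_iff (hIm X i)] at h1
    rw [fd_iff (hIm Y i)] at h2
    rw [fd_iff (hIm Z i)]
    intro q' hq'
    obtain ⟨r, hr, t, ht, hf⟩ := h1 q' hq'
    obtain ⟨r', hr', t', ht', hf'⟩ := h2 r (hr.trans hq')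
    have hle : r' ≤ p := hr'.trans (hr.trans (hq'.trans hq))
    have he : t = t' := θ.uniq i t t' r' (hle.trans hp) (θ.mono _ _ _ _ ht hr') ht'
    subst he
    exact ⟨r', hr'.trans hr, t, ht', h t r' hle (hf.mono hr') hf'⟩
  · intro X Y p hp h
    refine U.ultra (Im X) (Im Y) p hp fun i q hq => ?_
    obtain ⟨r, hr, t, ht⟩ := θ.total i q (hq.trans hp)
    obtain ⟨r', hr', h1⟩ := h t r (hr.trans hq)
    refine ⟨r', hr'.trans hr, ?_⟩
    rcases h1 with h1 | h1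
    · exact Or.inl (Fd.of_mem (a := r') ⟨t, θ.mono _ _ _ _ ht hr', h1⟩ le_rfl)
    · exact Or.inr (Fd.of_mem (a := r') ⟨t, θ.mono _ _ _ _ ht hr', h1⟩ le_rfl)
  · intro X p hp h
    obtain ⟨i, q, hq, hf⟩ := U.ne _ p hp h
    rw [fd_iff (hIm X i)] at hf
    obtain ⟨r, hr, t, _, h1⟩ := hf q le_rfl
    exact ⟨t, r, hr.trans hq, h1⟩

end Pool.Agent.Helper44.PC
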